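import Pool.Agent.H24.BZ.Targets
import Pool.Agent.H78.UG.UR2

/-!
A component with many signs on which the relation holds (board `bz_modules`, row `VR2`).
-/

set_option autoImplicit false

open MeasureTheory ProbabilityTheory Filter Topology Finset
open scoped Nat ENNReal

namespace Pool.Agent.H94.BZ

open Pool.Agent.H24.T2 (Pset rel)
open Pool.Agent.H49.AG (er2_lim er2_meas)
open Pool.Agent.H24.UG (Om shM DD FL SN FC SC RS)
open Pool.Agent.H24.BZ
open Pool.Agent.H78.UG (ur2_flm ur2_snm ur2_rsm)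

/-- the zero-one law for the flags -/
theorem vr2_zo {Q : ℕ} [NeZero Q] (ν : Measure (Om Q)) [IsProbabilityMeasure ν]
    (he : Ergodic (shM Q) ν) (w i : ℕ) (h0 : ν (FC Q w i) = 0) :
    ν (FL Q w i) = 0 ∨ ν (FL Q w i) = 1 := by
  have h1 : (shM Q) ⁻¹' (FL Q w i) =ᵐ[ν] FL Q w i := by
    have h2 : ∀ᵐ x ∂ν, x ∉ FC Q w i := measure_eq_zero_iff_ae_notMem.1 h0
    filter_upwards [h2] with x hx
    have h3 : (x.2.2 0).1 (w, i) = (x.2.2 1).1 (w, i) := by
      by_contra h4
      exact hx h4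
    have h5 : (x ∈ (shM Q) ⁻¹' (FL Q w i)) = (x ∈ FL Q w i) := by
      have h6 : (x ∈ (shM Q) ⁻¹' (FL Q w i)) ↔ (x.2.2 (0 + 1)).1 (w, i) = true := Iff.rfl
      have h7 : (x ∈ FL Q w i) ↔ (x.2.2 0).1 (w, i) = true := Iff.rfl
      rw [h6, h7, zero_add, h3]
    exact h5
  rcases he.quasiErgodic.ae_empty_or_univ₀ (ur2_flm w i).nullMeasurableSet h1 with h | h
  · left
    rw [measure_congr h, measure_empty]
  · right
    rw [measure_congr h, measure_univ]

/-- many components are good -/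
theorem vr2_one {Ω : Type} [MeasurableSpace Ω] (P : Measure Ω) [IsProbabilityMeasure P]
    (s : Finset ℕ) (hs : s.Nonempty) (d R a sm : ℝ) (hd : 0 < d) (hR : 0 < R) (ha : 0 < a)
    (hsm : sm ≤ R * d / 2) (κ : Kernel Ω Ω) [IsMarkovKernel κ]
    (hκ : ∀ B, MeasurableSet B → P B = ∫⁻ ω, κ ω B ∂P) (F : Set Ω) (hFm : MeasurableSet F)
    (h01 : ∀ᵐ ω ∂P, κ ω F = 0 ∨ κ ω F = 1) (hF : P.real F ≤ a) (A B : ℕ → Set Ω)
    (hAm : ∀ p, MeasurableSet (A p)) (hBm : ∀ p, MeasurableSet (B p)) (hAF : ∀ p, A p ⊆ F)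
    (hA : 3 / 4 * d * a * s.card ≤ ∑ p ∈ s, P.real (A p))
    (hB : ∑ p ∈ s, P.real (B p) ≤ 12 * R * ∑ p ∈ s, P.real (A p) + sm * s.card * a) :
    d * a / 4 ≤ P.real {ω | d / 4 * s.card ≤ ∑ p ∈ s, (κ ω).real (A p) ∧
      ∑ p ∈ s, (κ ω).real (B p) ≤ 40 * R * ∑ p ∈ s, (κ ω).real (A p)} := by
  have hc : (0 : ℝ) < s.card := by exact_mod_cast hs.card_pos
  have hreal : ∀ C, MeasurableSet C → ∫ ω, (κ ω).real C ∂P = P.real C := by
    intro C hC
    have h1 : ∫ ω, (κ ω).real C ∂P = (∫⁻ ω, κ ω C ∂P).toReal := by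
      refine integral_toReal (κ.measurable_coe hC).aemeasurable ?_
      exact Filter.Eventually.of_forall fun ω => measure_lt_top _ _
    rw [h1, ← hκ C hC]
    rfl
  have hint : ∀ C, MeasurableSet C → Integrable (fun ω => (κ ω).real C) P := by
    intro C hC
    refine Integrable.of_bound (κ.measurable_coe hC).ennreal_toReal.aestronglyMeasurable 1 ?_
    refine Filter.Eventually.of_forall fun ω => ?_
    rw [Real.norm_eq_abs, abs_of_nonneg measureReal_nonneg]
    exact measureReal_le_one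
  have hmeas : ∀ C : ℕ → Set Ω, (∀ p, MeasurableSet (C p)) →
      Measurable fun ω => ∑ p ∈ s, (κ ω).real (C p) := fun C hC =>
    Finset.measurable_sum _ fun p _ => (κ.measurable_coe (hC p)).ennreal_toReal
  have hsum : ∀ C : ℕ → Set Ω, (∀ p, MeasurableSet (C p)) →
      Integrable (fun ω => ∑ p ∈ s, (κ ω).real (C p)) P ∧
      ∫ ω, ∑ p ∈ s, (κ ω).real (C p) ∂P = ∑ p ∈ s, P.real (C p) := by
    intro C hC
    refine ⟨integrable_finsetSum _ fun p _ => hint _ (hC p), ?_⟩
    rw [integral_finsetSum _ fun p _ => hint _ (hC p)]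
    exact Finset.sum_congr rfl fun p _ => hreal _ (hC p)
  set f : Ω → ℝ := fun ω => ∑ p ∈ s, (κ ω).real (A p) with hf
  set g : Ω → ℝ := fun ω => ∑ p ∈ s, (κ ω).real (B p) with hg
  obtain ⟨hfi, hfv⟩ := hsum A hAm
  obtain ⟨hgi, hgv⟩ := hsum B hBm
  set G : Set Ω := {ω | d / 4 * s.card ≤ f ω ∧ g ω ≤ 40 * R * f ω} with hG
  have hGm : MeasurableSet G :=
    (measurableSet_le measurable_const (hmeas A hAm)).inter
      (measurableSet_le (hmeas B hBm) ((hmeas A hAm).const_mul _))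
  have hf0 : ∀ ω, 0 ≤ f ω := fun ω => Finset.sum_nonneg fun p _ => measureReal_nonneg
  have hg0 : ∀ ω, 0 ≤ g ω := fun ω => Finset.sum_nonneg fun p _ => measureReal_nonneg
  have hf1 : ∀ ω, f ω ≤ s.card := by
    intro ω
    have := Finset.sum_le_card_nsmul s (fun p => (κ ω).real (A p)) 1
      fun p _ => measureReal_le_one
    simpa using this
  have hle : ∀ᵐ ω ∂P, 40 * R * f ω - g ω ≤ G.indicator (fun _ => 40 * R * (s.card : ℝ)) ω +
      10 * R * d * s.card * (κ ω).real F := by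
    filter_upwards [h01] with ω hω
    have hk0 : 0 ≤ 10 * R * d * s.card * (κ ω).real F := by positivity
    by_cases hωG : ω ∈ G
    · rw [Set.indicator_of_mem hωG]
      have h1 : 40 * R * f ω ≤ 40 * R * s.card :=
        mul_le_mul_of_nonneg_left (hf1 ω) (by positivity)
      linarith [hg0 ω]
    · rw [Set.indicator_of_notMem hωG, zero_add]
      by_cases hωE : d / 4 * s.card ≤ f ω
      · have h2 : 40 * R * f ω < g ω := by
          by_contra h3
          exact hωG ⟨hωE, not_lt.1 h3⟩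
        linarith
      · have h2 : f ω < d / 4 * s.card := not_le.1 hωE
        rcases hω with hω | hω
        · have h3 : f ω = 0 := by
            rw [hf]
            refine Finset.sum_eq_zero fun p _ => ?_
            rw [measureReal_def, measure_mono_null (hAF p) hω, ENNReal.toReal_zero]
          rw [h3]
          linarith [hg0 ω]
        · have h3 : (κ ω).real F = 1 := by rw [measureReal_def, hω, ENNReal.toReal_one]
          rw [h3]
          have h4 : 40 * R * f ω ≤ 40 * R * (d / 4 * s.card) :=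
            mul_le_mul_of_nonneg_left h2.le (by positivity)
          linarith [hg0 ω]
  have hint1 : Integrable (fun ω => 40 * R * f ω - g ω) P := (hfi.const_mul _).sub hgi
  have hint2 : Integrable (fun ω => G.indicator (fun _ => 40 * R * (s.card : ℝ)) ω +
      10 * R * d * s.card * (κ ω).real F) P :=
    ((integrable_const _).indicator hGm).add ((hint F hFm).const_mul _)
  have hI := integral_mono_ae hint1 hint2 hle
  rw [integral_sub (hfi.const_mul _) hgi, integral_const_mul, hfv, hgv,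
    integral_add ((integrable_const _).indicator hGm) ((hint F hFm).const_mul _),
    integral_indicator_const _ hGm, integral_const_mul, hreal F hFm, smul_eq_mul] at hI
  have hF' : 10 * R * d * s.card * P.real F ≤ 10 * R * d * s.card * a :=
    mul_le_mul_of_nonneg_left hF (by positivity)
  have hA' : 28 * R * (3 / 4 * d * a * s.card) ≤ 28 * R * ∑ p ∈ s, P.real (A p) :=
    mul_le_mul_of_nonneg_left hA (by positivity)
  have hsm' : sm * s.card * a ≤ R * d / 2 * s.card * a :=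
    mul_le_mul_of_nonneg_right (mul_le_mul_of_nonneg_right hsm hc.le) ha.le
  have hfin : 10 * R * s.card * (d * a) ≤ 10 * R * s.card * (4 * P.real G) := by
    have hnn : 0 ≤ R * s.card * (d * a) := by positivity
    nlinarith
  have h5 := le_of_mul_le_mul_left hfin (by positivity)
  linarith

theorem pf_VR2 : T_VR2 := by
  intro Q n _ β c δ η ρ m af P hδ hδ1 hη hρ hP κ hκM hκ herg S hS
  have hprob := hP.prob
  have hQ : (0 : ℝ) < Q := by exact_mod_cast Nat.pos_of_ne_zero (NeZero.ne Q)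
  have hR : 0 < η / Q := by positivity
  set A : ℕ → ℕ → ℕ → Set (Om Q) := fun w i p => FL Q w i ∩ SN Q p with hA
  set B : ℕ → ℕ → ℕ → Set (Om Q) := fun w i p => FL Q w i ∩ RS Q β c p with hB
  have hAm : ∀ w i p, MeasurableSet (A w i p) := fun w i p => (ur2_flm w i).inter (ur2_snm p)
  have hBm : ∀ w i p, MeasurableSet (B w i p) := fun w i p =>
    (ur2_flm w i).inter (ur2_rsm β c p)
  set E : ℕ → ℕ → Set (Om Q) := fun w i =>
    {ω | δ / 4 * (Pset (Q * w !) (m w i)).card ≤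
        ∑ p ∈ Pset (Q * w !) (m w i), (κ ω).real (A w i p) ∧
      ∑ p ∈ Pset (Q * w !) (m w i), (κ ω).real (B w i p) ≤
        40 * (η / Q) * ∑ p ∈ Pset (Q * w !) (m w i), (κ ω).real (A w i p)} with hE
  have hEm : ∀ w i, MeasurableSet (E w i) := by
    intro w i
    have hm1 : Measurable fun ω : Om Q =>
        ∑ p ∈ Pset (Q * w !) (m w i), (κ ω).real (A w i p) :=
      Finset.measurable_sum _ fun p _ => (κ.measurable_coe (hAm w i p)).ennreal_toReal
    have hm2 : Measurable fun ω : Om Q =>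
        ∑ p ∈ Pset (Q * w !) (m w i), (κ ω).real (B w i p) :=
      Finset.measurable_sum _ fun p _ => (κ.measurable_coe (hBm w i p)).ennreal_toReal
    exact (measurableSet_le measurable_const hm1).inter
      (measurableSet_le hm2 (hm1.const_mul _))
  obtain ⟨i₀, hi₀⟩ : ∃ i₀ : ℕ, ∀ i, i₀ ≤ i → 2 / ((i : ℝ) + 1) ≤ η * δ / 2 := by
    obtain ⟨i₀, hi₀⟩ := exists_nat_gt (2 / (η * δ / 2))
    refine ⟨i₀, fun i hi => ?_⟩
    have h1 : (i₀ : ℝ) ≤ i := by exact_mod_cast hi
    have h2 : 0 < η * δ / 2 := by positivity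
    rw [div_le_iff₀ (by positivity)]
    rw [div_lt_iff₀ h2] at hi₀
    nlinarith
  have hEP : ∀ w i, i₀ ≤ i → δ * ρ / 4 ≤ P.real (E w i) := by
    intro w i hi
    have haf := hP.af0 w i
    have ha : 0 < af w i := lt_of_lt_of_le hρ haf.1
    have h1 : δ * ρ / 4 ≤ δ * af w i / 4 := by
      have := mul_le_mul_of_nonneg_left haf.1 hδ.le
      linarith
    refine h1.trans ?_
    refine vr2_one P (Pset (Q * w !) (m w i)) (hP.mi w i).2 δ (η / Q) (af w i)
      (2 / (((i : ℝ) + 1) * Q)) hδ hR ha ?_ κ hκ (FL Q w i) (ur2_flm w i) ?_ (hP.up w i)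
      (A w i) (B w i) (hAm w i) (hBm w i) (fun p => Set.inter_subset_left) ?_ ?_
    · have h2 := hi₀ i hi
      have h3 : 2 / (((i : ℝ) + 1) * Q) = 2 / ((i : ℝ) + 1) / Q := by
        rw [div_div]
      have h4 : η / Q * δ / 2 = η * δ / 2 / Q := by ring
      rw [h3, h4]
      exact div_le_div_of_nonneg_right h2 hQ.le
    · filter_upwards [herg] with ω hω
      exact vr2_zo (κ ω) hω.1 w i (hω.2 w i)
    · have h2 := Finset.card_nsmul_le_sum (Pset (Q * w !) (m w i))
        (fun p => P.real (A w i p)) _ (hP.dense w i)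
      rw [nsmul_eq_mul] at h2
      linarith
    · refine (hP.relation w i).trans (le_of_eq ?_)
      rw [mul_div_assoc]
  have hc0 : 0 < δ * ρ / 4 := by positivity
  have hF : ∀ w, δ * ρ / 4 ≤ P.real {ω | ∃ᶠ i in atTop, ω ∈ E w i} := fun w =>
    er2_lim P (E w) (hEm w) (δ * ρ / 4) i₀ (hEP w)
  have hFF : δ * ρ / 4 ≤ P.real {ω | ∃ᶠ w in atTop, ω ∈ {ω | ∃ᶠ i in atTop, ω ∈ E w i}} :=
    er2_lim P (fun w => {ω | ∃ᶠ i in atTop, ω ∈ E w i}) (fun w => er2_meas _ (hEm w))
      (δ * ρ / 4) 0 fun w _ => hF w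
  have hpos : P {ω | ∃ᶠ w in atTop, ω ∈ {ω | ∃ᶠ i in atTop, ω ∈ E w i}} ≠ 0 := by
    intro h0
    have h1 : P.real {ω | ∃ᶠ w in atTop, ω ∈ {ω | ∃ᶠ i in atTop, ω ∈ E w i}} = 0 := by
      rw [measureReal_def, h0, ENNReal.toReal_zero]
    rw [h1] at hFF
    linarith
  have hfr : ∃ᶠ ω in ae P, ω ∈ {ω | ∃ᶠ w in atTop, ω ∈ {ω | ∃ᶠ i in atTop, ω ∈ E w i}} :=
    frequently_ae_iff.2 hpos
  obtain ⟨ω, hω, hωS⟩ := (hfr.and_eventually hS).exists
  refine ⟨ω, hωS, ?_⟩
  refine Filter.Frequently.mono hω fun w hw => ?_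
  refine Filter.Frequently.mono hw fun i hi => ?_
  refine ⟨hi.1, hi.2.trans (le_of_eq ?_)⟩
  rw [mul_div_assoc]

end Pool.Agent.H94.BZ
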